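import Pool.Agent.Work.MP_31f339_al_helper61.Defs

/-!
# MP_31f339_al: a criterion for being non-elementary
-/

namespace Pool.Agent.Work.MP31f339

open Filter Topology

theorem elem_vanish {G : Type} [Group G] [TopologicalSpace G]
    (C : Set G) (hC : IsCompact C) (hgen : Subgroup.closure C = ⊤)
    (s : G →* G) (hs : Continuous s)
    (hM : ∀ M : Subgroup G, M.Normal → IsOpen (M : Set G) → ∀ x, s x ∈ M)
    (E : Type) [Group E] [TopologicalSpace E] (hE : Elementary E) :
    ∀ φ : G →* E, Continuous φ → ∃ n : ℕ, ∀ x, φ (s^[n] x) = 1 := by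
  induction hE with
  | profinite E h hc =>
    intro φ hφ
    refine ⟨1, fun x => ?_⟩
    have := h.topGroup
    have := h.t2
    have := h.totDisc
    by_contra hne
    obtain ⟨H, hH⟩ := ProfiniteGrp.exist_openNormalSubgroup_sub_open_nhds_of_one
      (G := E) (U := {φ (s^[1] x)}ᶜ) (isOpen_compl_singleton) (by
        simpa using fun h => hne h.symm)
    have h1 : s x ∈ (H.toSubgroup).comap φ := by
      apply hM
      · exact Subgroup.Normal.comap H.isNormal' φ
      · exact H.isOpen'.preimage hφ
    have h2 : φ (s x) ∈ (H : Set E) := h1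
    exact hH h2 rfl
  | discrete E h hd =>
    intro φ hφ
    refine ⟨1, fun x => ?_⟩
    have h1 : s x ∈ φ.ker := by
      apply hM
      · infer_instance
      · have : ((φ.ker : Subgroup G) : Set G) = φ ⁻¹' {1} := by
          ext y; simp [MonoidHom.mem_ker]
        rw [this]
        exact (isOpen_discrete _).preimage hφ
    exact h1
  | extension E h N hN h1 h2 ih1 ih2 =>
    intro φ hφ
    obtain ⟨n, hn⟩ := ih2 ((QuotientGroup.mk' N).comp φ) (by
      exact (QuotientGroup.continuous_mk).comp hφ)
    have hmem : ∀ x, φ (s^[n] x) ∈ N := by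
      intro x
      have := hn x
      simpa using this
    obtain ⟨sn, hsn⟩ : ∃ sn : G →* G, ∀ x, sn x = s^[n] x := by
      clear hmem hn
      induction n with
      | zero => exact ⟨MonoidHom.id G, fun x => rfl⟩
      | succ n ih =>
        obtain ⟨sn, hsn⟩ := ih
        exact ⟨sn.comp s, fun x => by simp [hsn]⟩
    let ψ : G →* N := (φ.comp sn).codRestrict N (by
      intro x
      simp only [MonoidHom.comp_apply, hsn]
      exact hmem x)
    have hcont : Continuous ψ := by
      refine Continuous.subtype_mk ?_ _
      have : (fun x => φ (sn x)) = φ ∘ (s^[n]) := by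
        ext x; simp [hsn]
      show Continuous (fun x => φ (sn x))
      rw [this]
      exact hφ.comp (hs.iterate n)
    obtain ⟨m, hm⟩ := ih1 ψ hcont
    refine ⟨n + m, fun x => ?_⟩
    have h3 := congrArg (Subtype.val) (hm x)
    simp only [ψ, MonoidHom.codRestrict_apply, MonoidHom.comp_apply, hsn] at h3
    rw [Function.iterate_add_apply]
    simpa using h3
  | union E h O hmono hopen hcover hel ih =>
    intro φ hφ
    obtain ⟨n, hn⟩ : ∃ n, φ '' C ⊆ (O n : Set E) := by
      have hcomp : IsCompact (φ '' C) := hC.image hφ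
      obtain ⟨n, hn⟩ := hcomp.elim_directed_cover (fun n => (O n : Set E)) hopen
        (fun y _ => by
          obtain ⟨n, hn⟩ := hcover y
          exact Set.mem_iUnion.2 ⟨n, hn⟩)
        (by
          intro a b
          exact ⟨max a b, hmono (le_max_left a b), hmono (le_max_right a b)⟩)
      exact ⟨n, hn⟩
    have hall : ∀ x, φ x ∈ O n := by
      have : Subgroup.closure C ≤ (O n).comap φ := by
        rw [Subgroup.closure_le]
        intro y hy
        exact hn ⟨y, hy, rfl⟩
      intro x
      have hx : x ∈ Subgroup.closure C := by rw [hgen]; trivial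
      exact this hx
    obtain ⟨m, hm⟩ := ih n (φ.codRestrict (O n) hall) (Continuous.subtype_mk hφ _)
    refine ⟨m, fun x => ?_⟩
    have h3 := congrArg (Subtype.val) (hm x)
    simpa using h3
  | iso E H e he he' h ih =>
    intro φ hφ
    obtain ⟨n, hn⟩ := ih (e.symm.toMonoidHom.comp φ) (he'.comp hφ)
    refine ⟨n, fun x => ?_⟩
    have := hn x
    simpa using this

theorem not_elementary {G : Type} [Group G] [TopologicalSpace G]
    (C : Set G) (hC : IsCompact C) (hgen : Subgroup.closure C = ⊤)
    (s : G →* G) (hs : Continuous s) (hinj : Function.Injective s)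
    (hM : ∀ M : Subgroup G, M.Normal → IsOpen (M : Set G) → ∀ x, s x ∈ M)
    (x : G) (hx : x ≠ 1) : ¬ Elementary G := by
  intro hE
  obtain ⟨n, hn⟩ := elem_vanish C hC hgen s hs hM G hE (MonoidHom.id G) continuous_id
  have h1 : s^[n] x = 1 := hn x
  have h2 : s^[n] 1 = 1 := by
    induction n with
    | zero => rfl
    | succ n _ => exact hn 1
  exact hx ((hinj.iterate n) (h1.trans h2.symm))

end Pool.Agent.Work.MP31f339
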