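import Pool.Agent.Work.MP_31f339_al_helper61.Tree

/-!
# MP_31f339_al: the topology of pointwise convergence
-/

namespace Pool.Agent.Work.MP31f339

open Filter Topology

instance instTopX : TopologicalSpace X := ⊥

instance instDiscX : DiscreteTopology X := ⟨rfl⟩

/-- The embedding of the permutations in the pairs of self-maps. -/
def emb (g : Equiv.Perm X) : (X → X) × (X → X) := (g, g.symm)

instance instTopPerm : TopologicalSpace (Equiv.Perm X) :=
  TopologicalSpace.induced emb inferInstance

theorem emb_inducing : IsInducing emb := ⟨rfl⟩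

theorem emb_injective : Function.Injective emb := by
  intro g h hgh
  have : (g : X → X) = h := congrArg Prod.fst hgh
  exact DFunLike.coe_injective this

theorem continuous_perm_apply (x : X) : Continuous (fun g : Equiv.Perm X => g x) :=
  (continuous_apply x).comp (continuous_fst.comp emb_inducing.continuous)

theorem continuous_perm_symm_apply (x : X) : Continuous (fun g : Equiv.Perm X => g.symm x) :=
  (continuous_apply x).comp (continuous_snd.comp emb_inducing.continuous)

theorem continuous_ev : Continuous (fun p : X × (X → X) => p.2 p.1) :=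
  continuous_prod_of_discrete_left.mpr (fun a => continuous_apply a)

instance instTopGroupPerm : IsTopologicalGroup (Equiv.Perm X) where
  continuous_mul := by
    rw [emb_inducing.continuous_iff]
    refine Continuous.prodMk ?_ ?_
    · refine continuous_pi (fun x => ?_)
      show Continuous (fun p : Equiv.Perm X × Equiv.Perm X => p.1 (p.2 x))
      have h1 : Continuous (fun p : Equiv.Perm X × Equiv.Perm X => (p.2 x, (p.1 : X → X))) :=
        Continuous.prodMk ((continuous_perm_apply x).comp continuous_snd)
          (continuous_pi (fun y => (continuous_perm_apply y).comp continuous_fst))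
      exact continuous_ev.comp h1
    · refine continuous_pi (fun x => ?_)
      show Continuous (fun p : Equiv.Perm X × Equiv.Perm X => p.2.symm (p.1.symm x))
      have h1 : Continuous (fun p : Equiv.Perm X × Equiv.Perm X =>
          (p.1.symm x, (p.2.symm : X → X))) :=
        Continuous.prodMk ((continuous_perm_symm_apply x).comp continuous_fst)
          (continuous_pi (fun y => (continuous_perm_symm_apply y).comp continuous_snd))
      exact continuous_ev.comp h1
  continuous_inv := by
    rw [emb_inducing.continuous_iff]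
    refine Continuous.prodMk ?_ ?_
    · exact continuous_pi (fun x => continuous_perm_symm_apply x)
    · exact continuous_pi (fun x => continuous_perm_apply x)

instance instT2Perm : T2Space (Equiv.Perm X) :=
  T2Space.of_injective_continuous emb_injective emb_inducing.continuous

instance instSecPerm : SecondCountableTopology (Equiv.Perm X) :=
  emb_inducing.secondCountableTopology

instance instTotDiscPerm : TotallyDisconnectedSpace (Equiv.Perm X) where
  isTotallyDisconnected_univ :=
    isTotallyDisconnected_of_image (emb_inducing.continuous.continuousOn) emb_injective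
      (isTotallyDisconnected_of_totallyDisconnectedSpace _)

/-- Basic neighbourhoods of the identity. -/
theorem exists_finite_of_mem_nhds {M : Set (Equiv.Perm X)} (hM : M ∈ 𝓝 (1 : Equiv.Perm X)) :
    ∃ F : Set X, F.Finite ∧ ∀ g : Equiv.Perm X, (∀ x ∈ F, g x = x) → g ∈ M := by
  rw [emb_inducing.nhds_eq_comap] at hM
  obtain ⟨s, hs, hsM⟩ := hM
  have h1 : 𝓝 (emb 1) = 𝓝 (fun x : X => x) ×ˢ 𝓝 (fun x : X => x) := by
    rw [← nhds_prod_eq]; rfl
  rw [h1, mem_prod_iff] at hs
  obtain ⟨s1, hs1, s2, hs2, hss⟩ := hs
  rw [nhds_pi, Filter.mem_pi] at hs1 hs2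
  obtain ⟨I1, hI1, t1, ht1, hs1⟩ := hs1
  obtain ⟨I2, hI2, t2, ht2, hs2⟩ := hs2
  refine ⟨I1 ∪ I2, hI1.union hI2, fun g hg => hsM ?_⟩
  apply hss
  refine ⟨hs1 ?_, hs2 ?_⟩
  · intro x hx
    show g x ∈ t1 x
    rw [hg x (Or.inl hx)]
    exact mem_of_mem_nhds (ht1 x)
  · intro x hx
    show g.symm x ∈ t2 x
    have : g.symm x = x := by
      rw [Equiv.symm_apply_eq]; exact (hg x (Or.inr hx)).symm
    rw [this]
    exact mem_of_mem_nhds (ht2 x)

/-- The pointwise stabiliser of a finite set is open. -/
theorem isOpen_fix (x y : X) : IsOpen {g : Equiv.Perm X | g x = y} :=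
  (isOpen_discrete ({y} : Set X)).preimage (continuous_perm_apply x)

/-- The stabiliser `V` of `1` is compact. -/
theorem isCompact_V : IsCompact V := by
  rw [emb_inducing.isCompact_iff]
  choose O hO hVO using V_orbit_finite
  have hK : IsCompact ((Set.univ.pi O) ×ˢ (Set.univ.pi O) : Set ((X → X) × (X → X))) :=
    (isCompact_univ_pi (fun x => (hO x).isCompact)).prod
      (isCompact_univ_pi (fun x => (hO x).isCompact))
  refine hK.of_isClosed_subset ?_ ?_
  · -- closedness
    have himg : emb '' V = {p : (X → X) × (X → X) | (∀ x, p.1 (p.2 x) = x) ∧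
        (∀ x, p.2 (p.1 x) = x) ∧ Good p.1 ∧ p.1 1 = 1} := by
      ext p
      constructor
      · rintro ⟨g, hg, rfl⟩
        exact ⟨fun x => g.apply_symm_apply x, fun x => g.symm_apply_apply x, hg.1, hg.2⟩
      · rintro ⟨h1, h2, h3, h4⟩
        exact ⟨⟨p.1, p.2, h2, h1⟩, ⟨h3, h4⟩, rfl⟩
    rw [himg]
    have c1 : ∀ x, Continuous (fun p : (X → X) × (X → X) => p.1 x) := fun x =>
      (continuous_apply x).comp continuous_fst
    have c2 : ∀ x, Continuous (fun p : (X → X) × (X → X) => p.2 x) := fun x =>
      (continuous_apply x).comp continuous_snd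
    have c12 : ∀ x, Continuous (fun p : (X → X) × (X → X) => p.1 (p.2 x)) := fun x =>
      continuous_ev.comp ((c2 x).prodMk continuous_fst)
    have c21 : ∀ x, Continuous (fun p : (X → X) × (X → X) => p.2 (p.1 x)) := fun x =>
      continuous_ev.comp ((c1 x).prodMk continuous_snd)
    have k1 : IsClosed {p : (X → X) × (X → X) | ∀ x, p.1 (p.2 x) = x} := by
      simp only [Set.ofPred_forall]
      exact isClosed_iInter (fun x => isClosed_eq (c12 x) continuous_const)
    have k2 : IsClosed {p : (X → X) × (X → X) | ∀ x, p.2 (p.1 x) = x} := by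
      simp only [Set.ofPred_forall]
      exact isClosed_iInter (fun x => isClosed_eq (c21 x) continuous_const)
    have k4 : IsClosed {p : (X → X) × (X → X) | p.1 1 = 1} :=
      isClosed_eq (c1 1) continuous_const
    have k3 : IsClosed {p : (X → X) × (X → X) | Good p.1} := by
      have : {p : (X → X) × (X → X) | Good p.1} = ⋂ x, ⋂ c,
          ((⋂ r, {p : (X → X) × (X → X) | p.1 (pw c r * x) = pw c r * p.1 x}) ∪
          (⋂ r, {p : (X → X) × (X → X) | p.1 (pw c r * x) = pw c (-r) * p.1 x})) := by
        ext p
        simp only [Good, Set.mem_ofPred_eq, Set.mem_iInter, Set.mem_union]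
      rw [this]
      refine isClosed_iInter (fun x => isClosed_iInter (fun c => ?_))
      refine IsClosed.union ?_ ?_
      · refine isClosed_iInter (fun r => ?_)
        exact isClosed_eq (c1 _) ((continuous_of_discreteTopology
          (f := fun y : X => pw c r * y)).comp (c1 x))
      · refine isClosed_iInter (fun r => ?_)
        exact isClosed_eq (c1 _) ((continuous_of_discreteTopology
          (f := fun y : X => pw c (-r) * y)).comp (c1 x))
    exact k1.inter (k2.inter (k3.inter k4))
  · rintro p ⟨g, hg, rfl⟩
    refine ⟨fun x _ => hVO x g hg, fun x _ => hVO x g⁻¹ (V_inv hg)⟩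

/-- The stabiliser of `1` in `G`. -/
def VG : Set GG := {g | (g : Equiv.Perm X) 1 = 1}

theorem isOpen_VG : IsOpen VG :=
  (isOpen_fix 1 1).preimage continuous_subtype_val

theorem isCompact_VG : IsCompact VG := by
  rw [Subtype.isCompact_iff]
  have : ((Subtype.val : GG → Equiv.Perm X) '' VG) = V := by
    ext g
    constructor
    · rintro ⟨g, hg, rfl⟩
      exact ⟨GG_le_A g.2, hg⟩
    · intro hg
      exact ⟨⟨g, V_sub_GG hg⟩, hg.2, rfl⟩
  rw [this]
  exact isCompact_V

instance instLocGG : LocallyCompactSpace GG :=
  isCompact_VG.locallyCompactSpace_of_mem_nhds_of_group (x := 1)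
    (isOpen_VG.mem_nhds (by show ((1 : GG) : Equiv.Perm X) 1 = 1; rfl))

theorem isTDLCSC_GG : IsTDLCSC GG where
  topGroup := inferInstance
  t2 := inferInstance
  locCompact := inferInstance
  totDisc := inferInstance
  secCount := (IsEmbedding.subtypeVal (p := fun g => g ∈ GG)).secondCountableTopology

/-- A compact generating set of `G`. -/
def CG : Set GG := VG ∪ Set.range (fun c => (⟨tau c 1, tau_mem_GG c⟩ : GG))

theorem isCompact_CG : IsCompact CG :=
  isCompact_VG.union (Set.finite_range _).isCompact

theorem closure_CG : Subgroup.closure CG = ⊤ := by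
  have h : (Subgroup.closure CG).map GG.subtype = GG := by
    rw [MonoidHom.map_closure]
    have : (GG.subtype '' CG) = V ∪ Set.range (fun c => tau c 1) := by
      unfold CG
      rw [Set.image_union]
      congr 1
      · ext g
        constructor
        · rintro ⟨g, hg, rfl⟩
          exact ⟨GG_le_A g.2, hg⟩
        · intro hg
          exact ⟨⟨g, V_sub_GG hg⟩, hg.2, rfl⟩
      · ext g
        constructor
        · rintro ⟨_, ⟨c, rfl⟩, rfl⟩
          exact ⟨c, rfl⟩
        · rintro ⟨c, rfl⟩
          exact ⟨_, ⟨c, rfl⟩, rfl⟩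
    rw [this]
    rfl
  rw [eq_top_iff]
  intro g _
  have hg : (g : Equiv.Perm X) ∈ (Subgroup.closure CG).map GG.subtype := by
    rw [h]; exact g.2
  obtain ⟨g', hg', he⟩ := hg
  have : g' = g := Subtype.ext he
  rw [← this]
  exact hg'

end Pool.Agent.Work.MP31f339
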