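import Pool.Agent.Work.MP_31f339_al_helper61.Ty
import Pool.Agent.Work.MP_31f339_al_helper61.Top
import Pool.Agent.Work.MP_31f339_al_helper61.NonElem

/-!
# MP_31f339_al: open normal subgroups of `G` contain the image of an injective endomorphism
-/

namespace Pool.Agent.Work.MP31f339

open Filter Topology

/-! ### The pieces of an element of `V` -/

/-- The permutation equal to `v` on the elements of type `c` and to the identity elsewhere. -/
def piece (c : Bool) (v : Equiv.Perm X) (hv : v ∈ V) : Equiv.Perm X where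
  toFun x := if ty x = some c then v x else x
  invFun x := if ty x = some c then v⁻¹ x else x
  left_inv := by
    intro x
    by_cases h : ty x = some c
    · simp only [h, if_true, ty_V hv]
      exact v.symm_apply_apply x
    · simp only [h, if_false]
  right_inv := by
    intro x
    by_cases h : ty x = some c
    · simp only [h, if_true, ty_V (V_inv hv)]
      exact v.apply_symm_apply x
    · simp only [h, if_false]

theorem piece_apply (c : Bool) (v : Equiv.Perm X) (hv : v ∈ V) (x : X) :
    piece c v hv x = if ty x = some c then v x else x := rfl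

theorem piece_one (c : Bool) (v : Equiv.Perm X) (hv : v ∈ V) : piece c v hv 1 = 1 := by
  rw [piece_apply, hv.2, ite_self]

theorem piece_line (c : Bool) (v : Equiv.Perm X) (hv : v ∈ V) (x : X) (d : Bool) :
    (∀ r, piece c v hv (pw d r * x) = v (pw d r * x)) ∨
      (∀ r, piece c v hv (pw d r * x) = pw d r * x) := by
  by_cases hx : x = 1
  · subst hx
    by_cases hd : d = c
    · left
      intro r
      by_cases hr : r = 0
      · rw [hr, pw_zero, one_mul, piece_one, hv.2]
      · rw [mul_one, piece_apply, if_pos (by rw [ty_pw hr, hd])]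
    · right
      intro r
      by_cases hr : r = 0
      · rw [hr, pw_zero, one_mul, piece_one]
      · rw [mul_one, piece_apply, if_neg]
        rw [ty_pw hr]
        intro h
        exact hd (Option.some.inj h)
  · by_cases ht : ty x = some c
    · left
      intro r
      by_cases hr : pw d r * x = 1
      · rw [hr, piece_one, hv.2]
      · rw [piece_apply, if_pos]
        rw [ty_mul hx hr, ht]
    · right
      intro r
      by_cases hr : pw d r * x = 1
      · rw [hr, piece_one]
      · rw [piece_apply, if_neg]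
        rw [ty_mul hx hr]
        exact ht

theorem piece_mem_V (c : Bool) (v : Equiv.Perm X) (hv : v ∈ V) : piece c v hv ∈ V := by
  refine ⟨?_, piece_one c v hv⟩
  intro x d
  rcases piece_line c v hv x d with h | h
  · have h0 := h 0
    rw [pw_zero, one_mul] at h0
    rcases hv.1 x d with h1 | h1
    · left; intro r; rw [h, h1, h0]
    · right; intro r; rw [h, h1, h0]
  · have h0 := h 0
    rw [pw_zero, one_mul] at h0
    left; intro r; rw [h, h0]

theorem piece_mul (v : Equiv.Perm X) (hv : v ∈ V) :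
    piece true v hv * piece false v hv = v := by
  ext x
  rw [Equiv.Perm.mul_apply]
  rw [piece_apply false v hv x]
  by_cases h : ty x = some false
  · rw [if_pos h, piece_apply, if_neg]
    rw [ty_V hv, h]
    decide
  · rw [if_neg h, piece_apply]
    by_cases h2 : ty x = some true
    · rw [if_pos h2]
    · rw [if_neg h2]
      have h3 : ty x = none := by
        rcases hx : ty x with _ | b
        · rfl
        · cases b
          · exact absurd hx h
          · exact absurd hx h2
      rw [ty_eq_none.1 h3, hv.2]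

theorem tau_pow (c : Bool) (n : ℕ) (x : X) : (tau c 1 ^ n) x = x * pw c n := by
  induction n generalizing x with
  | zero => simp [pw_zero]
  | succ n ih =>
    rw [pow_succ, Equiv.Perm.mul_apply, tau_apply, ih, mul_assoc, ← pw_add]
    congr 2
    push_cast
    ring

theorem tau_pow_inv (c : Bool) (n : ℕ) (x : X) : (tau c 1 ^ n)⁻¹ x = x * pw c (-n) := by
  rw [Equiv.Perm.inv_eq_iff_eq, tau_pow, mul_assoc, ← pw_add, neg_add_cancel, pw_zero, mul_one]

/-- For a finite set `F` some conjugate of a piece of colour `c` by a power of the translation of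
the other colour `d` fixes `F` pointwise. -/
theorem exists_conj_fix {c d : Bool} (hcd : c ≠ d) (v : Equiv.Perm X) (hv : v ∈ V)
    (F : Set X) (hF : F.Finite) :
    ∃ n : ℕ, ∀ x ∈ F, (tau d 1 ^ n * piece c v hv * (tau d 1 ^ n)⁻¹) x = x := by
  have hbad : ∀ x : X, {n : ℕ | ty (x * pw d (-n)) ≠ some d}.Finite := by
    intro x
    apply Set.Subsingleton.finite
    intro n hn m hm
    by_contra hne
    apply hm
    have h : x * pw d (-(m : ℚ)) = (x * pw d (-(n : ℚ))) * pw d ((n : ℚ) - m) := by
      rw [mul_assoc, ← pw_add]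
      congr 2
      ring
    show ty (x * pw d (-(m : ℚ))) = some d
    rw [h]
    apply ty_mul_pw
    · intro h0
      apply hne
      have : (n : ℚ) = m := sub_eq_zero.1 h0
      exact_mod_cast this
    · exact hn
  have hfin : (⋃ x ∈ F, {n : ℕ | ty (x * pw d (-n)) ≠ some d}).Finite :=
    hF.biUnion (fun x _ => hbad x)
  obtain ⟨n, hn⟩ := hfin.exists_notMem
  refine ⟨n, fun x hx => ?_⟩
  have hty : ty (x * pw d (-n)) = some d := by
    by_contra h
    exact hn (Set.mem_biUnion hx h)
  rw [Equiv.Perm.mul_apply, Equiv.Perm.mul_apply, tau_pow_inv, piece_apply, if_neg, tau_pow,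
    mul_assoc, ← pw_add, neg_add_cancel, pw_zero, mul_one]
  rw [hty]
  intro h
  exact hcd (Option.some.inj h).symm

theorem piece_mem_of_normal {M : Subgroup GG} (hM : M.Normal) (hopen : IsOpen (M : Set GG))
    (c : Bool) (v : Equiv.Perm X) (hv : v ∈ V) :
    (⟨piece c v hv, V_sub_GG (piece_mem_V c v hv)⟩ : GG) ∈ M := by
  obtain ⟨U, hU, hUM⟩ := isOpen_induced_iff.1 hopen
  have h1 : U ∈ 𝓝 (1 : Equiv.Perm X) := by
    apply hU.mem_nhds
    have : (1 : GG) ∈ (Subtype.val ⁻¹' U : Set GG) := by
      rw [hUM]; exact M.one_mem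
    exact this
  obtain ⟨F, hF, hFU⟩ := exists_finite_of_mem_nhds h1
  obtain ⟨n, hn⟩ := exists_conj_fix (c := c) (d := !c) (by cases c <;> decide) v hv F hF
  have h2 := hFU _ hn
  have htau : tau (!c) 1 ^ n ∈ GG := GG.pow_mem (tau_mem_GG _) n
  have h3 : ((⟨tau (!c) 1 ^ n, htau⟩ : GG) * (⟨piece c v hv, V_sub_GG (piece_mem_V c v hv)⟩ : GG) *
      (⟨tau (!c) 1 ^ n, htau⟩ : GG)⁻¹) ∈ M := by
    show _ ∈ (M : Set GG)
    rw [← hUM]
    exact h2
  generalize (⟨tau (!c) 1 ^ n, htau⟩ : GG) = t at h3
  generalize (⟨piece c v hv, V_sub_GG (piece_mem_V c v hv)⟩ : GG) = p at h3 ⊢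
  have h4 := hM.conj_mem _ h3 t⁻¹
  have e : t⁻¹ * (t * p * t⁻¹) * t⁻¹⁻¹ = p := by group
  rwa [e] at h4

theorem V_mem_of_normal {M : Subgroup GG} (hM : M.Normal) (hopen : IsOpen (M : Set GG))
    (v : Equiv.Perm X) (hv : v ∈ V) : (⟨v, V_sub_GG hv⟩ : GG) ∈ M := by
  have h := M.mul_mem (piece_mem_of_normal hM hopen true v hv)
    (piece_mem_of_normal hM hopen false v hv)
  have e : (⟨piece true v hv, V_sub_GG (piece_mem_V true v hv)⟩ : GG) *
      (⟨piece false v hv, V_sub_GG (piece_mem_V false v hv)⟩ : GG) = ⟨v, V_sub_GG hv⟩ :=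
    Subtype.ext (piece_mul v hv)
  rwa [e] at h

/-! ### Scalings -/

/-- The endomorphism multiplying the exponents of colour `c` by `q c`. -/
def scal (q : Bool → ℚ) : X →* X :=
  Monoid.CoprodI.lift (fun c =>
    (Monoid.CoprodI.of (M := fun _ : Bool => Multiplicative ℚ) (i := c)).comp
      (AddMonoidHom.toMultiplicative (AddMonoidHom.mulLeft (q c))))

theorem scal_pw (q : Bool → ℚ) (c : Bool) (r : ℚ) : scal q (pw c r) = pw c (q c * r) := by
  unfold scal pw
  rw [Monoid.CoprodI.lift_of]
  rfl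

theorem scal_scal (q q' : Bool → ℚ) (h : ∀ c, q c * q' c = 1) : ∀ x, scal q (scal q' x) = x := by
  refine pw_induction ?_ ?_
  · rw [map_one, map_one]
  · intro c r x ih
    rw [map_mul, map_mul, scal_pw, scal_pw, ih, ← mul_assoc, h, one_mul]

/-- The scaling as a permutation. -/
def scalP (q : Bool → ℚ) (hq : ∀ c, q c ≠ 0) : Equiv.Perm X where
  toFun := scal q
  invFun := scal (fun c => (q c)⁻¹)
  left_inv := scal_scal _ _ (fun c => inv_mul_cancel₀ (hq c))
  right_inv := scal_scal _ _ (fun c => mul_inv_cancel₀ (hq c))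

theorem scalP_apply (q : Bool → ℚ) (hq : ∀ c, q c ≠ 0) (x : X) : scalP q hq x = scal q x := rfl

/-- The automorphism inverting the colour `c`. -/
def alph (c : Bool) : Equiv.Perm X := scalP (fun d => if d = c then -1 else 1) (by
  intro d
  split_ifs <;> norm_num)

theorem alph_apply (c : Bool) (x : X) :
    alph c x = scal (fun d => if d = c then -1 else 1) x := rfl

theorem alph_mem_V (c : Bool) : alph c ∈ V := by
  refine ⟨?_, ?_⟩
  · intro x d
    by_cases hd : d = c
    · right; intro r
      rw [alph_apply, alph_apply, map_mul, scal_pw, if_pos hd, neg_one_mul]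
    · left; intro r
      rw [alph_apply, alph_apply, map_mul, scal_pw, if_neg hd, one_mul]
  · rw [alph_apply, map_one]

theorem alph_tau (c : Bool) (x : X) : alph c (x * pw c (-1)) = alph c x * pw c 1 := by
  rw [alph_apply, alph_apply, map_mul, scal_pw, if_pos rfl]
  norm_num

/-- The doubling. -/
def DD : Equiv.Perm X := scalP (fun _ => 2) (fun _ => two_ne_zero)

theorem DD_apply (x : X) : DD x = scal (fun _ => 2) x := rfl

theorem DD_mul (c : Bool) (r : ℚ) (x : X) : DD (pw c r * x) = pw c (2 * r) * DD x := by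
  rw [DD_apply, DD_apply, map_mul, scal_pw]

theorem DD_one : DD 1 = 1 := by rw [DD_apply, map_one]

theorem DD_inv_mul (c : Bool) (r : ℚ) (x : X) : DD⁻¹ (pw c r * x) = pw c (r / 2) * DD⁻¹ x := by
  rw [Equiv.Perm.inv_eq_iff_eq, DD_mul]
  have : DD (DD⁻¹ x) = x := DD.apply_symm_apply x
  rw [this]
  congr 2
  ring

theorem conj_V {v : Equiv.Perm X} (hv : v ∈ V) : DD * v * DD⁻¹ ∈ V := by
  refine ⟨?_, ?_⟩
  · intro x c
    rcases hv.1 (DD⁻¹ x) c with h | h
    · left; intro r
      rw [Equiv.Perm.mul_apply, Equiv.Perm.mul_apply, DD_inv_mul, h, DD_mul,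
        Equiv.Perm.mul_apply, Equiv.Perm.mul_apply]
      congr 2
      ring
    · right; intro r
      rw [Equiv.Perm.mul_apply, Equiv.Perm.mul_apply, DD_inv_mul, h, DD_mul,
        Equiv.Perm.mul_apply, Equiv.Perm.mul_apply]
      congr 2
      ring
  · rw [Equiv.Perm.mul_apply, Equiv.Perm.mul_apply]
    have : DD⁻¹ 1 = 1 := by rw [Equiv.Perm.inv_eq_iff_eq]; exact DD_one.symm
    rw [this, hv.2, DD_one]

theorem conj_tau (c : Bool) : DD * tau c 1 * DD⁻¹ = tau c 1 * tau c 1 := by
  ext x
  rw [Equiv.Perm.mul_apply, Equiv.Perm.mul_apply, Equiv.Perm.mul_apply, tau_apply, tau_apply,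
    tau_apply, DD_apply, map_mul, scal_pw, ← DD_apply]
  have : DD (DD⁻¹ x) = x := DD.apply_symm_apply x
  rw [this, mul_assoc, ← pw_add]
  norm_num

theorem conj_mem_GG {g : Equiv.Perm X} (hg : g ∈ GG) : DD * g * DD⁻¹ ∈ GG := by
  have h : GG ≤ GG.comap (MulAut.conj DD).toMonoidHom := by
    conv_lhs => unfold GG
    rw [Subgroup.closure_le]
    rintro g (hg | ⟨c, rfl⟩)
    · exact V_sub_GG (conj_V hg)
    · show DD * tau c 1 * DD⁻¹ ∈ GG
      rw [conj_tau]
      exact GG.mul_mem (tau_mem_GG c) (tau_mem_GG c)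
  exact h hg

/-- The injective endomorphism of `G`. -/
def sG : GG →* GG :=
  ((MulAut.conj DD).toMonoidHom.comp GG.subtype).codRestrict GG (fun g => conj_mem_GG g.2)

theorem sG_coe (g : GG) : (sG g : Equiv.Perm X) = DD * g * DD⁻¹ := rfl

theorem sG_injective : Function.Injective sG := by
  intro g h hgh
  have h1 : DD * (g : Equiv.Perm X) * DD⁻¹ = DD * h * DD⁻¹ := by
    rw [← sG_coe, ← sG_coe, hgh]
  exact Subtype.ext (mul_left_cancel (mul_right_cancel h1))

theorem sG_continuous : Continuous sG := by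
  refine Continuous.subtype_mk ?_ _
  show Continuous (fun g : GG => DD * (g : Equiv.Perm X) * DD⁻¹)
  exact (continuous_const.mul continuous_subtype_val).mul continuous_const

theorem tau_sq_mem_of_normal {M : Subgroup GG} (hM : M.Normal) (hopen : IsOpen (M : Set GG))
    (c : Bool) : sG ⟨tau c 1, tau_mem_GG c⟩ ∈ M := by
  have h1 := V_mem_of_normal hM hopen _ (alph_mem_V c)
  have h2 := hM.conj_mem _ h1 ⟨tau c 1, tau_mem_GG c⟩
  have h3 := M.mul_mem h2 (M.inv_mem h1)
  have e : (⟨tau c 1, tau_mem_GG c⟩ : GG) * ⟨alph c, V_sub_GG (alph_mem_V c)⟩ *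
      (⟨tau c 1, tau_mem_GG c⟩ : GG)⁻¹ * (⟨alph c, V_sub_GG (alph_mem_V c)⟩ : GG)⁻¹ =
      sG ⟨tau c 1, tau_mem_GG c⟩ := by
    rw [mul_inv_eq_iff_eq_mul]
    apply Subtype.ext
    show tau c 1 * alph c * (tau c 1)⁻¹ = (DD * tau c 1 * DD⁻¹) * alph c
    rw [conj_tau]
    ext x
    rw [Equiv.Perm.mul_apply, Equiv.Perm.mul_apply, tau_inv_apply, alph_tau]
    rfl
  rwa [e] at h3

theorem sG_mem_of_normal (M : Subgroup GG) (hM : M.Normal) (hopen : IsOpen (M : Set GG))
    (x : GG) : sG x ∈ M := by
  have h : Subgroup.closure CG ≤ M.comap sG := by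
    rw [Subgroup.closure_le]
    rintro g (hg | ⟨c, rfl⟩)
    · have hgV : (g : Equiv.Perm X) ∈ V := ⟨GG_le_A g.2, hg⟩
      exact V_mem_of_normal hM hopen _ (conj_V hgV)
    · exact tau_sq_mem_of_normal hM hopen c
  rw [closure_CG] at h
  exact h trivial

theorem tau_ne_one (c : Bool) : (⟨tau c 1, tau_mem_GG c⟩ : GG) ≠ 1 := by
  intro h
  have h1 : tau c 1 = 1 := congrArg Subtype.val h
  have h2 : tau c 1 1 = (1 : Equiv.Perm X) 1 := by rw [h1]
  rw [tau_apply, one_mul, Equiv.Perm.one_apply, pw_eq_one] at h2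
  exact one_ne_zero h2

theorem GG_not_elementary : ¬ Elementary GG :=
  not_elementary CG isCompact_CG closure_CG sG sG_continuous sG_injective sG_mem_of_normal
    ⟨tau true 1, tau_mem_GG true⟩ (tau_ne_one true)

end Pool.Agent.Work.MP31f339
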