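import Pool.Agent.Work.MP_31f339_al_helper61.Tree

/-!
# MP_31f339_al: labels along a periodic axis
-/

namespace Pool.Agent.Work.MP31f339

/-- Combinatorial data: for each colour an involution of the labels and positive lengths. -/
structure LabelData where
  p : Bool → ℤ → ℤ
  q : Bool → ℤ → ℚ
  hp : ∀ c i, p c (p c i) = i
  hq : ∀ c i, q c (p c i) = q c i
  hpos : ∀ c i, 0 < q c i

namespace LabelData

variable (L : LabelData)

/-- One step of a labelled path. -/
def Step (u v : X × ℤ) : Prop :=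
  ∃ (c : Bool) (s : ℚ), (s = L.q c u.2 ∨ s = -L.q c u.2) ∧ v = (pw c s * u.1, L.p c u.2)

/-- Labelled paths. -/
def Path (u v : X × ℤ) : Prop := Relation.ReflTransGen L.Step u v

theorem step_symm {u v : X × ℤ} (h : L.Step u v) : L.Step v u := by
  obtain ⟨c, s, hs, rfl⟩ := h
  refine ⟨c, -s, ?_, ?_⟩
  · show -s = L.q c (L.p c u.2) ∨ -s = -L.q c (L.p c u.2)
    rw [L.hq]
    rcases hs with rfl | rfl
    · right; rfl
    · left; rw [neg_neg]
  · show u = (pw c (-s) * (pw c s * u.1), L.p c (L.p c u.2))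
    rw [pw_mul_pw, neg_add_cancel, pw_zero, one_mul, L.hp]

theorem path_refl (u : X × ℤ) : L.Path u u := Relation.ReflTransGen.refl

theorem path_trans {u v w : X × ℤ} (h : L.Path u v) (h' : L.Path v w) : L.Path u w :=
  Relation.ReflTransGen.trans h h'

theorem path_symm {u v : X × ℤ} (h : L.Path u v) : L.Path v u := by
  induction h with
  | refl => exact L.path_refl _
  | tail _ h2 ih => exact Relation.ReflTransGen.head (L.step_symm h2) ih

theorem step_good {g : X → X} (hg : Good g) {u v : X × ℤ} (h : L.Step u v) :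
    L.Step (g u.1, u.2) (g v.1, v.2) := by
  obtain ⟨c, s, hs, rfl⟩ := h
  rcases hg u.1 c with h1 | h1
  · exact ⟨c, s, hs, by rw [h1]⟩
  · refine ⟨c, -s, ?_, by rw [h1]⟩
    rcases hs with rfl | rfl
    · right; rfl
    · left; show - -L.q c u.2 = L.q c u.2; rw [neg_neg]

theorem path_good {g : X → X} (hg : Good g) {u v : X × ℤ} (h : L.Path u v) :
    L.Path (g u.1, u.2) (g v.1, v.2) := by
  induction h with
  | refl => exact L.path_refl _
  | tail _ h2 ih => exact Relation.ReflTransGen.tail ih (L.step_good hg h2)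

theorem path_shift {k : ℤ} (hpk : ∀ c i, L.p c (i + k) = L.p c i + k)
    (hqk : ∀ c i, L.q c (i + k) = L.q c i) {u v : X × ℤ} (h : L.Path u v) :
    L.Path (u.1, u.2 + k) (v.1, v.2 + k) := by
  induction h with
  | refl => exact L.path_refl _
  | tail _ h2 ih =>
    refine Relation.ReflTransGen.tail ih ?_
    obtain ⟨c, s, hs, rfl⟩ := h2
    refine ⟨c, s, ?_, ?_⟩
    · show s = L.q c (_ + k) ∨ s = -L.q c (_ + k)
      rw [hqk]; exact hs
    · show _ = (_, L.p c (_ + k))
      rw [hpk]

/-! ### Labels are unique -/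

/-- Iterated involution. -/
def pp (c : Bool) (n i : ℤ) : ℤ := if Even n then i else L.p c i

theorem q_pp (c : Bool) (n i : ℤ) : L.q c (L.pp c n i) = L.q c i := by
  unfold pp
  split_ifs
  · rfl
  · exact L.hq c i

theorem pp_pp (c : Bool) (n m i : ℤ) : L.pp c n (L.pp c m i) = L.pp c (n + m) i := by
  unfold pp
  by_cases h1 : Even n <;> by_cases h2 : Even m <;> simp [h1, h2, Int.even_add, L.hp]

/-- The space on which the free product acts. -/
abbrev Y : Type := ℤ × {u : ℚ // 0 ≤ u ∧ u < 1}

/-- The action of one colour. -/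
def rho (c : Bool) (d : ℚ) (y : Y) : Y :=
  (L.pp c ⌊(y.2 : ℚ) + d / L.q c y.1⌋ y.1,
    ⟨Int.fract ((y.2 : ℚ) + d / L.q c y.1), Int.fract_nonneg _, Int.fract_lt_one _⟩)

theorem rho_zero (c : Bool) (y : Y) : L.rho c 0 y = y := by
  obtain ⟨i, u, h0, h1⟩ := y
  have h2 : ⌊u⌋ = 0 := by
    rw [Int.floor_eq_iff]
    constructor
    · simpa using h0
    · simpa using h1
  have h3 : Int.fract u = u := Int.fract_eq_self.2 ⟨h0, h1⟩
  unfold rho
  simp only [zero_div, add_zero, h2, h3]
  rfl

theorem rho_rho (c : Bool) (d d' : ℚ) (y : Y) :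
    L.rho c d (L.rho c d' y) = L.rho c (d + d') y := by
  obtain ⟨i, u, h0, h1⟩ := y
  unfold rho
  simp only [q_pp, pp_pp]
  set t : ℚ := u + d' / L.q c i with ht
  have e : u + (d + d') / L.q c i = t + d / L.q c i := by rw [ht]; ring
  have e1 : ⌊Int.fract t + d / L.q c i⌋ + ⌊t⌋ = ⌊u + (d + d') / L.q c i⌋ := by
    rw [e, ← Int.floor_add_intCast]
    congr 1
    have := Int.fract_add_floor t
    linarith
  have e2 : Int.fract (Int.fract t + d / L.q c i) = Int.fract (u + (d + d') / L.q c i) := by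
    rw [e, ← Int.fract_add_intCast (Int.fract t + d / L.q c i) ⌊t⌋]
    congr 1
    have := Int.fract_add_floor t
    linarith
  rw [e1]
  congr 1
  exact Subtype.ext e2

/-- The action of the free product. -/
def act : X →* Function.End Y :=
  Monoid.CoprodI.lift (fun c =>
    { toFun := fun d => L.rho c (Multiplicative.toAdd d)
      map_one' := by
        funext y
        exact L.rho_zero c y
      map_mul' := by
        intro d d'
        funext y
        exact (L.rho_rho c _ _ y).symm })

theorem act_pw (c : Bool) (r : ℚ) (y : Y) : L.act (pw c r) y = L.rho c r y := by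
  unfold act pw
  rw [Monoid.CoprodI.lift_of]
  rfl

theorem act_mul (x x' : X) (y : Y) : L.act (x * x') y = L.act x (L.act x' y) := by
  rw [map_mul]; rfl

theorem act_one (y : Y) : L.act 1 y = y := by
  rw [map_one]; rfl

/-- The point with label `i`. -/
def pt (i : ℤ) : Y := (i, ⟨0, le_rfl, one_pos⟩)

theorem rho_pt (c : Bool) (i : ℤ) {s : ℚ} (hs : s = L.q c i ∨ s = -L.q c i) :
    L.rho c s (pt i) = pt (L.p c i) := by
  have hq := (L.hpos c i).ne'
  have h : ∃ n : ℤ, ¬ Even n ∧ s / L.q c i = n := by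
    rcases hs with rfl | rfl
    · exact ⟨1, by decide, by rw [div_self hq]; norm_num⟩
    · exact ⟨-1, by decide, by rw [neg_div, div_self hq]; norm_num⟩
  obtain ⟨n, hn, he⟩ := h
  unfold rho pt
  simp only [zero_add, he, Int.floor_intCast, Int.fract_intCast]
  unfold pp
  rw [if_neg hn]

theorem path_inv {u v : X × ℤ} (h : L.Path u v) :
    L.act (u.1)⁻¹ (pt u.2) = L.act (v.1)⁻¹ (pt v.2) := by
  induction h with
  | refl => rfl
  | @tail v w _ h2 ih =>
    rw [ih]
    obtain ⟨c, s, hs, rfl⟩ := h2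
    show _ = L.act (pw c s * v.1)⁻¹ (pt (L.p c v.2))
    rw [mul_inv_rev, act_mul, ← pw_neg, act_pw, rho_pt, L.hp]
    rw [L.hq]
    rcases hs with rfl | rfl
    · right; rfl
    · left; rw [neg_neg]

theorem path_unique {z : X} {i j : ℤ} (h : L.Path (z, i) (z, j)) : i = j := by
  have h1 := L.path_inv h
  have h2 := congrArg (L.act z) h1
  rw [← act_mul, ← act_mul, mul_inv_cancel, act_one, act_one] at h2
  exact congrArg Prod.fst h2

end LabelData

end Pool.Agent.Work.MP31f339
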