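import Mathlib

/-!
# MP_31f339_al: definitions

`IsTDLCSC`, the class `Elementary` of Wesolek, the contraction group `con` and the relative
Tits core `relTitsCore`.
-/

namespace Pool.Agent.Work.MP31f339

open Filter Topology

/-- `G` is a t.d.l.c.s.c. group: a Hausdorff, totally disconnected, locally compact,
second-countable topological group. -/
structure IsTDLCSC (G : Type) [Group G] [TopologicalSpace G] : Prop where
  topGroup : IsTopologicalGroup G
  t2 : T2Space G
  locCompact : LocallyCompactSpace G
  totDisc : TotallyDisconnectedSpace G
  secCount : SecondCountableTopology G

/-- Wesolek's class of elementary groups: the smallest class (closed under isomorphism of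
topological groups) of t.d.l.c.s.c. groups which contains the second-countable profinite groups
and the countable discrete groups and is closed under extensions and countable increasing unions
of open subgroups. -/
inductive Elementary : ∀ (G : Type) [Group G] [TopologicalSpace G], Prop
  | profinite (G : Type) [Group G] [TopologicalSpace G] (h : IsTDLCSC G)
      (hc : CompactSpace G) : Elementary G
  | discrete (G : Type) [Group G] [TopologicalSpace G] (h : IsTDLCSC G)
      (hd : DiscreteTopology G) : Elementary G
  | extension (G : Type) [Group G] [TopologicalSpace G] (h : IsTDLCSC G)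
      (N : Subgroup G) [N.Normal] (hN : IsClosed (N : Set G))
      (h1 : Elementary N) (h2 : Elementary (G ⧸ N)) : Elementary G
  | union (G : Type) [Group G] [TopologicalSpace G] (h : IsTDLCSC G)
      (O : ℕ → Subgroup G) (hmono : Monotone O) (hopen : ∀ n, IsOpen (O n : Set G))
      (hcover : ∀ g : G, ∃ n, g ∈ O n) (hel : ∀ n, Elementary (O n)) : Elementary G
  | iso (G H : Type) [Group G] [TopologicalSpace G] [Group H] [TopologicalSpace H]
      (e : G ≃* H) (he : Continuous e) (he' : Continuous e.symm)
      (h : Elementary G) : Elementary H

/-- The contraction group of `g`, as a set: all `x` with `g ^ n * x * g ^ (-n) → 1`. -/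
def con {G : Type} [Group G] [TopologicalSpace G] (g : G) : Set G :=
  {x | Tendsto (fun n : ℕ => g ^ n * x * (g ^ n)⁻¹) atTop (𝓝 1)}

/-- The relative Tits core of `g`: the subgroup abstractly generated by the closures of the
contraction groups of `g` and of `g⁻¹`. -/
def relTitsCore {G : Type} [Group G] [TopologicalSpace G] (g : G) : Subgroup G :=
  Subgroup.closure (closure (con g) ∪ closure (con g⁻¹))

end Pool.Agent.Work.MP31f339
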