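import Pool.Agent.Work.MP_31f339_al_helper61.Axis
import Pool.Agent.Work.MP_31f339_al_helper61.Top

/-!
# MP_31f339_al: no nontrivial element lies in its own relative Tits core
-/

namespace Pool.Agent.Work.MP31f339

open Filter Topology

theorem con_sub_of_normalised {G : Type} [Group G] [TopologicalSpace G]
    (g : G) (W : Subgroup G) (hopen : IsOpen (W : Set G))
    (hnorm : ∀ w, g * w * g⁻¹ ∈ W → w ∈ W) : con g ⊆ (W : Set G) := by
  intro x hx
  have h1 : ∀ᶠ n : ℕ in atTop, g ^ n * x * (g ^ n)⁻¹ ∈ (W : Set G) :=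
    hx.eventually (hopen.mem_nhds W.one_mem)
  obtain ⟨n, hn⟩ := h1.exists
  have h2 : ∀ (n : ℕ) (y : G), g ^ n * y * (g ^ n)⁻¹ ∈ (W : Set G) → y ∈ (W : Set G) := by
    intro n
    induction n with
    | zero => intro y hy; simpa using hy
    | succ n ih =>
      intro y hy
      apply ih
      apply hnorm
      have e : g ^ (n + 1) * y * (g ^ (n + 1))⁻¹ = g * (g ^ n * y * (g ^ n)⁻¹) * g⁻¹ := by
        rw [pow_succ']
        group
      rwa [e] at hy
  exact h2 n x hn

theorem relTitsCore_le {G : Type} [Group G] [TopologicalSpace G] [IsTopologicalGroup G]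
    (g : G) (W : Subgroup G) (hopen : IsOpen (W : Set G))
    (h1 : ∀ w, g * w * g⁻¹ ∈ W → w ∈ W) (h2 : ∀ w, w ∈ W → g * w * g⁻¹ ∈ W) :
    relTitsCore g ≤ W := by
  unfold relTitsCore
  rw [Subgroup.closure_le]
  have hclosed : IsClosed (W : Set G) := Subgroup.isClosed_of_isOpen W hopen
  apply Set.union_subset
  · exact closure_minimal (con_sub_of_normalised g W hopen h1) hclosed
  · refine closure_minimal (con_sub_of_normalised g⁻¹ W hopen ?_) hclosed
    intro w hw
    have := h2 _ hw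
    have e : g * (g⁻¹ * w * g⁻¹⁻¹) * g⁻¹ = w := by group
    rwa [e] at this

theorem finite_orbit {g : Equiv.Perm X} (hg : g ∈ A) {x₀ : X} (h0 : g x₀ = x₀) :
    ∀ y, ∃ m : ℕ, 0 < m ∧ (g ^ m) y = y := by
  refine pw_induction' x₀ ⟨1, one_pos, by rw [pow_one]; exact h0⟩ ?_
  rintro c r y ⟨m, hm, hy⟩
  rcases (A.pow_mem hg m) y c with h | h
  · exact ⟨m, hm, by rw [h, hy]⟩
  · refine ⟨m + m, by omega, ?_⟩
    rw [pow_add, Equiv.Perm.mul_apply, h, hy, h, neg_neg, hy]

theorem con_trivial {g : GG} {x₀ : X} (h0 : (g : Equiv.Perm X) x₀ = x₀) : con g ⊆ {1} := by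
  intro x hx
  rw [Set.mem_singleton_iff]
  apply Subtype.ext
  ext y
  show (x : Equiv.Perm X) y = y
  obtain ⟨m, hm, hmy⟩ := finite_orbit (GG_le_A g.2) h0 y
  obtain ⟨m', hm', hmy'⟩ := finite_orbit (GG_le_A g.2) h0 ((x : Equiv.Perm X) y)
  have hU : {h : GG | (h : Equiv.Perm X) y = y} ∈ 𝓝 (1 : GG) := by
    apply IsOpen.mem_nhds
    · exact (isOpen_fix y y).preimage continuous_subtype_val
    · rfl
  have h1 : ∀ᶠ n : ℕ in atTop, ((g ^ n * x * (g ^ n)⁻¹ : GG) : Equiv.Perm X) y = y :=
    hx.eventually hU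
  obtain ⟨N, hN⟩ := eventually_atTop.1 h1
  have h2 := hN (N * (m * m')) (Nat.le_mul_of_pos_right N (Nat.mul_pos hm hm'))
  have hfix : ∀ (j : ℕ) (z : X), ((g : Equiv.Perm X) ^ j) z = z →
      ∀ l : ℕ, ((g : Equiv.Perm X) ^ (j * l)) z = z := by
    intro j z hz l
    induction l with
    | zero => simp
    | succ l ih => rw [Nat.mul_succ, pow_add, Equiv.Perm.mul_apply, hz, ih]
  have h3 : ((g : Equiv.Perm X) ^ (N * (m * m'))) y = y := by
    have := hfix m y hmy (N * m')
    rwa [show m * (N * m') = N * (m * m') by ring] at this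
  have h4 : ((g : Equiv.Perm X) ^ (N * (m * m'))) ((x : Equiv.Perm X) y) =
      (x : Equiv.Perm X) y := by
    have := hfix m' _ hmy' (N * m)
    rwa [show m' * (N * m) = N * (m * m') by ring] at this
  have h5 : ((g : Equiv.Perm X) ^ (N * (m * m')))⁻¹ y = y := by
    rw [Equiv.Perm.inv_eq_iff_eq]; exact h3.symm
  have h6 : ((g ^ (N * (m * m')) * x * (g ^ (N * (m * m')))⁻¹ : GG) : Equiv.Perm X) y =
      ((g : Equiv.Perm X) ^ (N * (m * m'))) ((x : Equiv.Perm X)
        (((g : Equiv.Perm X) ^ (N * (m * m')))⁻¹ y)) := rfl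
  rw [h6, h5, h4] at h2
  exact h2

theorem detect_fix {g : GG} (hg : g ≠ 1) {x₀ : X} (h0 : (g : Equiv.Perm X) x₀ = x₀) :
    g ∉ relTitsCore g := by
  have h0' : ((g⁻¹ : GG) : Equiv.Perm X) x₀ = x₀ := by
    show (g : Equiv.Perm X)⁻¹ x₀ = x₀
    rw [Equiv.Perm.inv_eq_iff_eq]; exact h0.symm
  have hle : relTitsCore g ≤ ⊥ := by
    unfold relTitsCore
    rw [Subgroup.closure_le]
    apply Set.union_subset
    · exact closure_minimal (con_trivial h0) isClosed_singleton
    · exact closure_minimal (con_trivial h0') isClosed_singleton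
  intro h
  exact hg (Subgroup.mem_bot.1 (hle h))

/-- The case of an element translating a line. -/
theorem detect_line {g : GG} (hg : g ≠ 1) {x₀ : X} {c : Bool} {d : ℚ}
    (h0 : (g : Equiv.Perm X) x₀ = pw c d * x₀) : g ∉ relTitsCore g := by
  rcases (GG_le_A g.2) x₀ c with h | h
  swap
  · -- a reflection of the line
    apply detect_fix hg (x₀ := pw c (d / 2) * x₀)
    rw [h, h0, pw_mul_pw]
    congr 2
    ring
  by_cases hd : d = 0
  · apply detect_fix hg (x₀ := x₀)
    rw [h0, hd, pw_zero, one_mul]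
  -- the pointwise stabiliser of the line
  let W : Subgroup GG :=
    { carrier := {w | ∀ r, (w : Equiv.Perm X) (pw c r * x₀) = pw c r * x₀}
      mul_mem' := by
        intro a b ha hb r
        show (a : Equiv.Perm X) ((b : Equiv.Perm X) (pw c r * x₀)) = _
        rw [hb, ha]
      one_mem' := by intro r; rfl
      inv_mem' := by
        intro a ha r
        show (a : Equiv.Perm X)⁻¹ (pw c r * x₀) = _
        rw [Equiv.Perm.inv_eq_iff_eq, ha] }
  have hmem : ∀ w : GG, w ∈ W ↔ ∀ r, (w : Equiv.Perm X) (pw c r * x₀) = pw c r * x₀ :=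
    fun w => Iff.rfl
  have hgr : ∀ r, (g : Equiv.Perm X) (pw c r * x₀) = pw c (r + d) * x₀ := by
    intro r
    rw [h, h0, pw_mul_pw]
  have hgr' : ∀ r, (g : Equiv.Perm X)⁻¹ (pw c r * x₀) = pw c (r - d) * x₀ := by
    intro r
    rw [Equiv.Perm.inv_eq_iff_eq, hgr, sub_add_cancel]
  have hopen : IsOpen (W : Set GG) := by
    apply Subgroup.isOpen_of_mem_nhds W (g := 1)
    have hU : {h : GG | (h : Equiv.Perm X) x₀ = x₀} ∩
        {h : GG | (h : Equiv.Perm X) (pw c 1 * x₀) = pw c 1 * x₀} ∈ 𝓝 (1 : GG) := by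
      apply IsOpen.mem_nhds
      · exact ((isOpen_fix _ _).preimage continuous_subtype_val).inter
          ((isOpen_fix _ _).preimage continuous_subtype_val)
      · exact ⟨rfl, rfl⟩
    refine mem_of_superset hU ?_
    rintro w ⟨hw1, hw2⟩
    have hw1' : (w : Equiv.Perm X) x₀ = x₀ := hw1
    have hw2' : (w : Equiv.Perm X) (pw c 1 * x₀) = pw c 1 * x₀ := hw2
    intro r
    rcases (GG_le_A w.2) x₀ c with h' | h'
    · rw [h', hw1']
    · have := h' 1
      rw [hw2', hw1'] at this
      have h3 := pw_injective c (mul_right_cancel this)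
      norm_num at h3
  intro hin
  have hle := relTitsCore_le g W hopen (by
    intro w hw r
    have := hw (r + d)
    have e : ((g * w * g⁻¹ : GG) : Equiv.Perm X) (pw c (r + d) * x₀) =
      (g : Equiv.Perm X) ((w : Equiv.Perm X) ((g : Equiv.Perm X)⁻¹ (pw c (r + d) * x₀))) := rfl
    rw [e, hgr', add_sub_cancel_right, ← hgr] at this
    exact (g : Equiv.Perm X).injective this) (by
    intro w hw r
    have e : ((g * w * g⁻¹ : GG) : Equiv.Perm X) (pw c r * x₀) =
      (g : Equiv.Perm X) ((w : Equiv.Perm X) ((g : Equiv.Perm X)⁻¹ (pw c r * x₀))) := rfl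
    rw [e, hgr', hw, hgr, sub_add_cancel])
  have h4 := hle hin 0
  rw [hgr, zero_add] at h4
  exact hd (pw_injective c (mul_right_cancel h4))

/-- The case of an element translating a periodic labelled axis. -/
theorem detect_axis (L : LabelData) {g : GG} {x₀ : X} {k : ℤ} (hk : k ≠ 0)
    (hpk : ∀ c i, L.p c (i + k) = L.p c i + k) (hqk : ∀ c i, L.q c (i + k) = L.q c i)
    (h0 : L.Path (x₀, 0) ((g : Equiv.Perm X) x₀, k)) : g ∉ relTitsCore g := by
  have hpk' : ∀ c i, L.p c (i + -k) = L.p c i + -k := by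
    intro c i
    have := hpk c (i + -k)
    rw [neg_add_cancel_right] at this
    omega
  have hqk' : ∀ c i, L.q c (i + -k) = L.q c i := by
    intro c i
    have := hqk c (i + -k)
    rw [neg_add_cancel_right] at this
    exact this.symm
  have hgP : ∀ y i, L.Path (x₀, 0) ((g : Equiv.Perm X) y, i + k) ↔ L.Path (x₀, 0) (y, i) := by
    intro y i
    constructor
    · intro h
      have h1 := L.path_trans (L.path_symm h0) h
      have h2 := L.path_shift hpk' hqk' h1
      have h3 := L.path_good (GG_le_A (GG.inv_mem g.2)) h2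
      simp only [add_neg_cancel, add_neg_cancel_right] at h3
      have e : ∀ z, (g : Equiv.Perm X)⁻¹ ((g : Equiv.Perm X) z) = z := fun z =>
        (g : Equiv.Perm X).symm_apply_apply z
      rw [e, e] at h3
      exact h3
    · intro h
      have h2 := L.path_shift hpk hqk h
      have h3 := L.path_good (GG_le_A g.2) h2
      simp only [zero_add] at h3
      exact L.path_trans h0 h3
  let W : Subgroup GG :=
    { carrier := {w | ∀ y i, L.Path (x₀, 0) ((w : Equiv.Perm X) y, i) ↔ L.Path (x₀, 0) (y, i)}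
      mul_mem' := by
        intro a b ha hb y i
        show L.Path (x₀, 0) ((a : Equiv.Perm X) ((b : Equiv.Perm X) y), i) ↔ _
        rw [ha, hb]
      one_mem' := by intro y i; rfl
      inv_mem' := by
        intro a ha y i
        have := ha ((a : Equiv.Perm X)⁻¹ y) i
        have e : (a : Equiv.Perm X) ((a : Equiv.Perm X)⁻¹ y) = y :=
          (a : Equiv.Perm X).apply_symm_apply y
        rw [e] at this
        exact this.symm }
  have hopen : IsOpen (W : Set GG) := by
    apply Subgroup.isOpen_of_mem_nhds W (g := 1)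
    have hU : {h : GG | (h : Equiv.Perm X) x₀ = x₀} ∈ 𝓝 (1 : GG) := by
      apply IsOpen.mem_nhds
      · exact (isOpen_fix _ _).preimage continuous_subtype_val
      · rfl
    refine mem_of_superset hU ?_
    intro w hw y i
    have hw' : (w : Equiv.Perm X) x₀ = x₀ := hw
    have e : ∀ z, (w : Equiv.Perm X)⁻¹ ((w : Equiv.Perm X) z) = z := fun z =>
      (w : Equiv.Perm X).symm_apply_apply z
    constructor
    · intro h
      have h3 := L.path_good (GG_le_A (GG.inv_mem w.2)) h
      have e2 : (w : Equiv.Perm X)⁻¹ x₀ = x₀ := by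
        rw [Equiv.Perm.inv_eq_iff_eq]; exact hw'.symm
      simp only at h3
      rw [e2, e] at h3
      exact h3
    · intro h
      have h3 := L.path_good (GG_le_A w.2) h
      simp only at h3
      rw [hw'] at h3
      exact h3
  intro hin
  have hgP' : ∀ y i, L.Path (x₀, 0) ((g : Equiv.Perm X)⁻¹ y, i + -k) ↔ L.Path (x₀, 0) (y, i) := by
    intro y i
    have := hgP ((g : Equiv.Perm X)⁻¹ y) (i + -k)
    have e : (g : Equiv.Perm X) ((g : Equiv.Perm X)⁻¹ y) = y :=
      (g : Equiv.Perm X).apply_symm_apply y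
    rw [e, neg_add_cancel_right] at this
    exact this.symm
  have hle := relTitsCore_le g W hopen (by
    intro w hw y i
    have h1 := hw ((g : Equiv.Perm X) y) (i + k)
    have e : ((g * w * g⁻¹ : GG) : Equiv.Perm X) ((g : Equiv.Perm X) y) =
      (g : Equiv.Perm X) ((w : Equiv.Perm X) ((g : Equiv.Perm X)⁻¹ ((g : Equiv.Perm X) y))) := rfl
    have e2 : (g : Equiv.Perm X)⁻¹ ((g : Equiv.Perm X) y) = y :=
      (g : Equiv.Perm X).symm_apply_apply y
    rw [e, e2, hgP, hgP] at h1
    exact h1) (by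
    intro w hw y i
    have e : ((g * w * g⁻¹ : GG) : Equiv.Perm X) y =
      (g : Equiv.Perm X) ((w : Equiv.Perm X) ((g : Equiv.Perm X)⁻¹ y)) := rfl
    rw [e]
    have h1 := hgP ((w : Equiv.Perm X) ((g : Equiv.Perm X)⁻¹ y)) (i + -k)
    rw [neg_add_cancel_right] at h1
    rw [h1]
    exact (hw _ _).trans (hgP' y i))
  have h4 := (hle hin x₀ 0).2 (L.path_refl _)
  have h5 := L.path_trans (L.path_symm h4) h0
  exact hk (L.path_unique h5).symm

end Pool.Agent.Work.MP31f339
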