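import Pool.Agent.Work.MP_31f339_al_helper61.Detect

/-!
# MP_31f339_al: minimal syllable length
-/

namespace Pool.Agent.Work.MP31f339

/-- A chain of `k` syllables from some point to its image under `g`. -/
def Rep (g : Equiv.Perm X) (k : ℕ) : Prop :=
  ∃ x : ℕ → X, x k = g (x 0) ∧ ∀ i < k, ∃ c e, x (i + 1) = pw c e * x i

theorem exists_chain : ∀ y : X, ∃ (k : ℕ) (x : ℕ → X), x 0 = 1 ∧ x k = y ∧
    ∀ i < k, ∃ c e, x (i + 1) = pw c e * x i := by
  refine pw_induction ⟨0, fun _ => 1, rfl, rfl, fun i hi => absurd hi (Nat.not_lt_zero i)⟩ ?_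
  rintro c r y ⟨k, x, h0, hk, hx⟩
  refine ⟨k + 1, fun i => if i ≤ k then x i else pw c r * y, ?_, ?_, ?_⟩
  · simpa using h0
  · simp
  · intro i hi
    beta_reduce
    by_cases h : i < k
    · obtain ⟨c', e', h'⟩ := hx i h
      refine ⟨c', e', ?_⟩
      rw [if_pos (by omega : i + 1 ≤ k), if_pos (by omega : i ≤ k)]
      exact h'
    · have : i = k := by omega
      subst this
      refine ⟨c, r, ?_⟩
      rw [if_neg (by omega), if_pos le_rfl, hk]

theorem exists_rep (g : Equiv.Perm X) : ∃ k, Rep g k := by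
  obtain ⟨k, x, h0, hk, hx⟩ := exists_chain (g 1)
  exact ⟨k, x, by rw [hk, h0], hx⟩

theorem delete_step {g : Equiv.Perm X} {k : ℕ} {x : ℕ → X} (hk : x k = g (x 0))
    (hx : ∀ i < k, ∃ c e, x (i + 1) = pw c e * x i) {i : ℕ} (hi : i < k)
    (hd : i + 1 < k → ∃ c e, x (i + 2) = pw c e * x i) (hd' : i + 1 = k → x (i + 1) = x i) :
    Rep g (k - 1) := by
  refine ⟨fun j => if j ≤ i then x j else x (j + 1), ?_, ?_⟩
  · simp only [Nat.zero_le, if_true]
    by_cases h : k - 1 ≤ i
    · rw [if_pos h]
      have h1 : i + 1 = k := by omega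
      rw [← hk, ← h1, Nat.add_sub_cancel]
      exact (hd' h1).symm
    · rw [if_neg h, Nat.sub_add_cancel (by omega), hk]
  · intro j hj
    beta_reduce
    rcases lt_trichotomy j i with h | h | h
    · obtain ⟨c, e, he⟩ := hx j (by omega)
      exact ⟨c, e, by rw [if_pos (by omega : j + 1 ≤ i), if_pos (by omega : j ≤ i)]; exact he⟩
    · subst h
      obtain ⟨c, e, he⟩ := hd (by omega)
      exact ⟨c, e, by rw [if_neg (by omega), if_pos le_rfl]; exact he⟩
    · obtain ⟨c, e, he⟩ := hx (j + 1) (by omega)
      exact ⟨c, e, by rw [if_neg (by omega), if_neg (by omega)]; exact he⟩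

theorem wrap_step {g : Equiv.Perm X} (hg : g ∈ A) {k : ℕ} (hk2 : 2 ≤ k) {x : ℕ → X}
    (hk : x k = g (x 0)) (hx : ∀ i < k, ∃ c e, x (i + 1) = pw c e * x i)
    {c : Bool} {e e' : ℚ} (h1 : x 1 = pw c e * x 0) (h2 : x k = pw c e' * x (k - 1)) :
    Rep g (k - 1) := by
  refine ⟨fun j => if j + 1 < k then x (j + 1) else g (x 1), ?_, ?_⟩
  · beta_reduce
    rw [if_neg (by omega), if_pos (by omega)]
  · intro j hj
    beta_reduce
    by_cases h : j + 2 < k
    · obtain ⟨c', e'', he⟩ := hx (j + 1) (by omega)
      exact ⟨c', e'', by rw [if_pos (by omega), if_pos (by omega)]; exact he⟩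
    · have hj2 : j + 1 = k - 1 := by omega
      rw [if_neg (by omega), if_pos (by omega), hj2]
      rcases hg (x 0) c with h3 | h3
      · exact ⟨c, e + e', by rw [h1, h3, ← hk, h2, pw_mul_pw]⟩
      · exact ⟨c, -e + e', by rw [h1, h3, ← hk, h2, pw_mul_pw]⟩

/-- The label data of a periodic sequence of colours and lengths. -/
def axisData (C : ℤ → Bool) (R : ℤ → ℚ) (hC : ∀ n, C (n + 1) ≠ C n) (hR : ∀ n, 0 < R n) :
    LabelData where
  p c i := if C i = c then i + 1 else i - 1
  q c i := if C i = c then R i else R (i - 1)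
  hp := by
    intro c i
    by_cases h : C i = c
    · have h1 : ¬ C (i + 1) = c := by rw [← h]; exact hC i
      simp only [if_pos h, if_neg h1]
      ring
    · have h1 : C (i - 1) = c := by
        have := hC (i - 1)
        rw [sub_add_cancel] at this
        revert h this
        cases C i <;> cases C (i - 1) <;> cases c <;> simp
      simp only [if_neg h, if_pos h1]
      ring
  hq := by
    intro c i
    by_cases h : C i = c
    · have h1 : ¬ C (i + 1) = c := by rw [← h]; exact hC i
      simp only [if_pos h, if_neg h1]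
      congr 1
      ring
    · have h1 : C (i - 1) = c := by
        have := hC (i - 1)
        rw [sub_add_cancel] at this
        revert h this
        cases C i <;> cases C (i - 1) <;> cases c <;> simp
      simp only [if_neg h, if_pos h1]
  hpos := by
    intro c i
    by_cases h : C i = c
    · simp only [if_pos h]; exact hR _
    · simp only [if_neg h]; exact hR _

theorem notMem_relTitsCore {g : GG} (hg : g ≠ 1) : g ∉ relTitsCore g := by
  classical
  have hex := exists_rep (g : Equiv.Perm X)
  have hgA := GG_le_A g.2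
  set k := Nat.find hex with hkdef
  obtain ⟨x, hk, hx⟩ := Nat.find_spec hex
  rw [← hkdef] at hk hx
  have hmin : ∀ m, m < k → ¬ Rep (g : Equiv.Perm X) m := fun m hm => Nat.find_min hex hm
  -- small cases
  rcases Nat.lt_or_ge k 2 with hk2 | hk2
  · have h01 : k = 0 ∨ k = 1 := by omega
    rcases h01 with h | h
    · rw [h] at hk
      exact detect_fix hg hk.symm
    · obtain ⟨c, e, he⟩ := hx 0 (by omega)
      rw [h] at hk
      rw [zero_add] at he
      exact detect_line hg (hk.symm.trans he)
  -- choose colours and exponents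
  have hx' : ∀ i, ∃ c e, i < k → x (i + 1) = pw c e * x i := by
    intro i
    by_cases h : i < k
    · obtain ⟨c, e, he⟩ := hx i h
      exact ⟨c, e, fun _ => he⟩
    · exact ⟨true, 0, fun h' => absurd h' h⟩
  choose c e hce using hx'
  have hne : ∀ i, i < k → e i ≠ 0 := by
    intro i hi h0
    have h1 : x (i + 1) = x i := by rw [hce i hi, h0, pw_zero, one_mul]
    refine hmin (k - 1) (by omega) (delete_step hk hx hi ?_ (fun _ => h1))
    intro h2
    obtain ⟨c', e', h'⟩ := hx (i + 1) h2
    exact ⟨c', e', by rw [← h1]; exact h'⟩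
  have hcol : ∀ i, i + 1 < k → c (i + 1) ≠ c i := by
    intro i hi hc
    refine hmin (k - 1) (by omega) (delete_step hk hx (by omega : i < k) ?_ ?_)
    · intro _
      refine ⟨c i, e (i + 1) + e i, ?_⟩
      have h1 := hce (i + 1) hi
      rw [show i + 1 + 1 = i + 2 by ring] at h1
      rw [h1, hc, hce i (by omega), pw_mul_pw]
    · intro h; omega
  have hwrap : c 0 ≠ c (k - 1) := by
    intro hc
    refine hmin (k - 1) (by omega) (wrap_step hgA hk2 hk hx (c := c 0) (e := e 0)
      (e' := e (k - 1)) ?_ ?_)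
    · have := hce 0 (by omega)
      rwa [zero_add] at this
    · have := hce (k - 1) (by omega)
      rw [Nat.sub_add_cancel (by omega)] at this
      rw [this, hc]
  -- periodic data
  have hkpos : (0 : ℤ) < k := by omega
  set idx : ℤ → ℕ := fun n => (n % (k : ℤ)).toNat with hidx
  have hidx_lt : ∀ n, idx n < k := by
    intro n
    have h1 := Int.emod_nonneg n hkpos.ne'
    have h2 := Int.emod_lt_of_pos n hkpos
    simp only [hidx]
    omega
  have hidx_add : ∀ n, idx (n + k) = idx n := by
    intro n
    simp only [hidx, Int.add_emod_right]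
  have hidx_nat : ∀ i : ℕ, i < k → idx (i : ℤ) = i := by
    intro i hi
    simp only [hidx]
    rw [Int.emod_eq_of_lt (by omega) (by omega)]
    simp
  have hidx_succ : ∀ n, (idx n + 1 < k ∧ idx (n + 1) = idx n + 1) ∨
      (idx n = k - 1 ∧ idx (n + 1) = 0) := by
    intro n
    have h1 := Int.emod_nonneg n hkpos.ne'
    have h2 := Int.emod_lt_of_pos n hkpos
    have h3 : (n + 1) % (k : ℤ) = (n % k + 1) % k := by
      rw [Int.emod_add_emod]
    by_cases h4 : n % (k : ℤ) + 1 < k
    · left
      rw [Int.emod_eq_of_lt (by omega) h4] at h3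
      simp only [hidx]
      omega
    · right
      have h5 : n % (k : ℤ) + 1 = k := by omega
      rw [h5, Int.emod_self] at h3
      simp only [hidx]
      omega
  have hC : ∀ n, c (idx (n + 1)) ≠ c (idx n) := by
    intro n
    rcases hidx_succ n with ⟨h1, h2⟩ | ⟨h1, h2⟩
    · rw [h2]; exact hcol _ h1
    · rw [h1, h2]; exact hwrap
  have hR : ∀ n, 0 < |e (idx n)| := fun n => abs_pos.2 (hne _ (hidx_lt n))
  set L := axisData (fun n => c (idx n)) (fun n => |e (idx n)|) hC hR with hL
  have hLp : ∀ c' i, L.p c' i = if c (idx i) = c' then i + 1 else i - 1 := fun _ _ => rfl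
  have hLq : ∀ c' i, L.q c' i = if c (idx i) = c' then |e (idx i)| else |e (idx (i - 1))| :=
    fun _ _ => rfl
  have hpath : ∀ i : ℕ, i ≤ k → L.Path (x 0, 0) (x i, (i : ℤ)) := by
    intro i
    induction i with
    | zero => intro _; exact L.path_refl _
    | succ i ih =>
      intro hi
      refine Relation.ReflTransGen.tail (ih (by omega)) ?_
      refine ⟨c i, e i, ?_, ?_⟩
      · show e i = L.q (c i) (i : ℤ) ∨ e i = -L.q (c i) (i : ℤ)
        rw [hLq, hidx_nat i (by omega), if_pos rfl]
        rcases abs_choice (e i) with h | h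
        · left; exact h.symm
        · right; rw [h, neg_neg]
      · show (x (i + 1), ((i + 1 : ℕ) : ℤ)) = (pw (c i) (e i) * x i, L.p (c i) (i : ℤ))
        rw [hLp, hidx_nat i (by omega), if_pos rfl, hce i (by omega)]
        push_cast
        rfl
  have hpk := hpath k le_rfl
  rw [hk] at hpk
  refine detect_axis L (k := (k : ℤ)) hkpos.ne' ?_ ?_ hpk
  · intro c' i
    rw [hLp, hLp, hidx_add]
    split_ifs <;> ring
  · intro c' i
    rw [hLq, hLq, hidx_add, show i + (k : ℤ) - 1 = (i - 1) + k by ring, hidx_add]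

end Pool.Agent.Work.MP31f339
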