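import Pool.Agent.Work.MP_31f339_al_helper61.Defs

/-!
# MP_31f339_al: the free product of two copies of the rationals and the group `A`
-/

namespace Pool.Agent.Work.MP31f339

open Monoid.CoprodI

/-- The free product of two copies of the group of rationals. -/
abbrev X : Type := Monoid.CoprodI (fun _ : Bool => Multiplicative ℚ)

/-- The element `c ^ r` of the free product. -/
def pw (c : Bool) (r : ℚ) : X :=
  Monoid.CoprodI.of (M := fun _ : Bool => Multiplicative ℚ) (i := c) (Multiplicative.ofAdd r)

theorem pw_add (c : Bool) (r s : ℚ) : pw c (r + s) = pw c r * pw c s := by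
  unfold pw
  rw [← map_mul, ← ofAdd_add]

theorem pw_zero (c : Bool) : pw c 0 = 1 := by
  unfold pw
  rw [ofAdd_zero, map_one]

theorem pw_neg (c : Bool) (r : ℚ) : pw c (-r) = (pw c r)⁻¹ := by
  rw [eq_inv_iff_mul_eq_one, ← pw_add, neg_add_cancel, pw_zero]

theorem pw_injective (c : Bool) : Function.Injective (pw c) := by
  intro r s h
  exact Multiplicative.ofAdd.injective (Monoid.CoprodI.of_injective c h)

theorem pw_eq_one {c : Bool} {r : ℚ} : pw c r = 1 ↔ r = 0 := by
  constructor
  · intro h
    exact pw_injective c (h.trans (pw_zero c).symm)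
  · rintro rfl
    exact pw_zero c

theorem pw_mul_pw (c : Bool) (r s : ℚ) (x : X) : pw c r * (pw c s * x) = pw c (r + s) * x := by
  rw [← mul_assoc, ← pw_add]

theorem pw_induction {P : X → Prop} (one : P 1) (step : ∀ c r x, P x → P (pw c r * x)) :
    ∀ x, P x := by
  intro x
  refine Monoid.CoprodI.induction_left x one ?_
  intro i m x hx
  exact step i (Multiplicative.toAdd m) x hx

theorem pw_induction' {P : X → Prop} (x₀ : X) (base : P x₀)
    (step : ∀ c r x, P x → P (pw c r * x)) : ∀ x, P x := by
  have h : ∀ y, P (y * x₀) := by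
    refine pw_induction ?_ ?_
    · simpa using base
    · intro c r x hx
      rw [mul_assoc]
      exact step c r _ hx
  intro x
  have := h (x * x₀⁻¹)
  simpa using this

instance : Countable X := by
  have h : Function.Injective (fun x : X => (Word.equiv x).toList) := by
    intro x y hxy
    exact Word.equiv.injective (Word.ext hxy)
  have : Countable (Multiplicative ℚ) := inferInstanceAs (Countable ℚ)
  exact h.countable

/-- `g` preserves the coloured lines and acts on each of them by `r ↦ ± r`. -/
def Good (g : X → X) : Prop :=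
  ∀ x c, (∀ r, g (pw c r * x) = pw c r * g x) ∨ (∀ r, g (pw c r * x) = pw c (-r) * g x)

theorem Good.comp {g h : X → X} (hg : Good g) (hh : Good h) : Good (g ∘ h) := by
  intro x c
  rcases hh x c with h1 | h1 <;> rcases hg (h x) c with h2 | h2
  · left; intro r; simp only [Function.comp_apply]; rw [h1, h2]
  · right; intro r; simp only [Function.comp_apply]; rw [h1, h2]
  · right; intro r; simp only [Function.comp_apply]; rw [h1, h2]
  · left; intro r; simp only [Function.comp_apply]; rw [h1, h2, neg_neg]

theorem Good.of_inv {g g' : X → X} (hg : Good g) (h1 : ∀ x, g (g' x) = x)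
    (h2 : ∀ x, g' (g x) = x) : Good g' := by
  intro x c
  rcases hg (g' x) c with h3 | h3
  · left; intro r
    have := h3 r
    rw [h1] at this
    rw [← this, h2]
  · right; intro r
    have := h3 (-r)
    rw [h1, neg_neg] at this
    rw [← this, h2]

/-- The group of all colour-preserving isometries. -/
def A : Subgroup (Equiv.Perm X) where
  carrier := {g | Good g}
  mul_mem' := by
    intro g h hg hh
    exact hg.comp hh
  one_mem' := by
    intro x c
    left; intro r; rfl
  inv_mem' := by
    intro g hg
    exact hg.of_inv (fun x => g.apply_symm_apply x) (fun x => g.symm_apply_apply x)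

theorem mem_A {g : Equiv.Perm X} : g ∈ A ↔ Good g := Iff.rfl

/-- Right translation by `c ^ r`. -/
def tau (c : Bool) (r : ℚ) : Equiv.Perm X := Equiv.mulRight (pw c r)

theorem tau_apply (c : Bool) (r : ℚ) (x : X) : tau c r x = x * pw c r := rfl

theorem tau_inv_apply (c : Bool) (r : ℚ) (x : X) : (tau c r)⁻¹ x = x * pw c (-r) := by
  rw [Equiv.Perm.inv_eq_iff_eq, tau_apply, pw_neg, inv_mul_cancel_right]

theorem tau_mem_A (c : Bool) (r : ℚ) : tau c r ∈ A := by
  intro x d
  left; intro s
  rw [tau_apply, tau_apply, mul_assoc]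

/-- The set `V` of all elements of `A` fixing `1`. -/
def V : Set (Equiv.Perm X) := {g | g ∈ A ∧ g 1 = 1}

theorem V_inv {g : Equiv.Perm X} (hg : g ∈ V) : g⁻¹ ∈ V :=
  ⟨A.inv_mem hg.1, by rw [Equiv.Perm.inv_eq_iff_eq]; exact hg.2.symm⟩

/-- The group `G`. -/
def GG : Subgroup (Equiv.Perm X) := Subgroup.closure (V ∪ Set.range (fun c => tau c 1))

theorem GG_le_A : GG ≤ A := by
  unfold GG
  rw [Subgroup.closure_le]
  rintro g (hg | ⟨c, rfl⟩)
  · exact hg.1
  · exact tau_mem_A c 1

theorem V_sub_GG {g : Equiv.Perm X} (hg : g ∈ V) : g ∈ GG :=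
  Subgroup.subset_closure (Or.inl hg)

theorem tau_mem_GG (c : Bool) : tau c 1 ∈ GG :=
  Subgroup.subset_closure (Or.inr ⟨c, rfl⟩)

/-- Orbits of `V` are finite. -/
theorem V_orbit_finite : ∀ x : X, ∃ O : Set X, O.Finite ∧ ∀ g ∈ V, g x ∈ O := by
  refine pw_induction ?_ ?_
  · exact ⟨{1}, Set.finite_singleton _, fun g hg => hg.2⟩
  · rintro c r x ⟨O, hO, hx⟩
    refine ⟨(fun y => pw c r * y) '' O ∪ (fun y => pw c (-r) * y) '' O,
      (hO.image _).union (hO.image _), ?_⟩
    intro g hg
    rcases hg.1 x c with h | h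
    · left; exact ⟨g x, hx g hg, (h r).symm⟩
    · right; exact ⟨g x, hx g hg, (h r).symm⟩

end Pool.Agent.Work.MP31f339
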