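import Pool.Agent.Work.MP_31f339_al_helper61.Tree

/-!
# MP_31f339_al: the colour of the last syllable
-/

namespace Pool.Agent.Work.MP31f339

open Monoid.CoprodI

/-- The colour of the last syllable of an element of the free product. -/
def ty (x : X) : Option Bool := ((Word.equiv x).toList.getLast?).map Sigma.fst

theorem ty_eq_none {x : X} : ty x = none ↔ x = 1 := by
  unfold ty
  rw [Option.map_eq_none_iff, List.getLast?_eq_none_iff]
  constructor
  · intro h
    have h1 : Word.equiv x = (Word.empty : Word (fun _ : Bool => Multiplicative ℚ)) := Word.ext h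
    have h2 : Word.equiv (1 : X) = (Word.empty : Word (fun _ : Bool => Multiplicative ℚ)) :=
      one_smul X (Word.empty : Word (fun _ : Bool => Multiplicative ℚ))
    exact Word.equiv.injective (h1.trans h2.symm)
  · rintro rfl
    have h2 : Word.equiv (1 : X) = (Word.empty : Word (fun _ : Bool => Multiplicative ℚ)) :=
      one_smul X (Word.empty : Word (fun _ : Bool => Multiplicative ℚ))
    rw [h2]
    rfl

theorem ty_decomp (c : Bool) (x : X) : ∃ (e : ℚ) (y : X), x = pw c e * y ∧
    (y = 1 → ∀ r, r ≠ 0 → ty (pw c r * y) = some c) ∧ (y ≠ 1 → ∀ r, ty (pw c r * y) = ty y) := by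
  classical
  set q := Word.equivPair c (Word.equiv x) with hq
  have hword : ∀ r : ℚ, Word.equiv (pw c r * q.tail.prod) =
      Word.rcons (M := fun _ : Bool => Multiplicative ℚ) (i := c)
        (Word.Pair.mk (M := fun _ : Bool => Multiplicative ℚ) (i := c)
          (Multiplicative.ofAdd r) q.tail q.fstIdx_ne) := by
    intro r
    rw [← Equiv.eq_symm_apply]
    show _ = Word.prod _
    rw [Word.prod_rcons]
    rfl
  have hlist : ∀ r : ℚ, r ≠ 0 → (Word.equiv (pw c r * q.tail.prod)).toList =
      ⟨c, Multiplicative.ofAdd r⟩ :: q.tail.toList := by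
    intro r hr
    rw [hword, Word.rcons, dif_neg (by simpa using hr)]
    rfl
  have hlist0 : (Word.equiv (q.tail.prod)).toList = q.tail.toList := by
    have : Word.equiv (q.tail.prod) = q.tail := Word.equiv.apply_symm_apply q.tail
    rw [this]
  refine ⟨Multiplicative.toAdd q.head, q.tail.prod, ?_, ?_, ?_⟩
  · have h1 : Word.rcons q = Word.equiv x := by
      rw [← Word.equivPair_symm, hq, Equiv.symm_apply_apply]
    have h2 := Word.prod_rcons q
    rw [h1] at h2
    have h3 : (Word.equiv x).prod = x := Word.equiv.symm_apply_apply x
    rw [h3] at h2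
    exact h2
  · intro hy r hr
    have hnil : q.tail.toList = [] := by
      have := ty_eq_none.2 hy
      unfold ty at this
      rw [Option.map_eq_none_iff, List.getLast?_eq_none_iff, hlist0] at this
      exact this
    unfold ty
    rw [hlist r hr, hnil]
    rfl
  · intro hy r
    by_cases hr : r = 0
    · rw [hr, pw_zero, one_mul]
    · have hne : q.tail.toList ≠ [] := by
        intro h
        apply hy
        apply ty_eq_none.1
        unfold ty
        rw [hlist0, h]
        rfl
      unfold ty
      rw [hlist r hr, hlist0, List.getLast?_cons_of_ne_nil hne]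

theorem ty_mul {c : Bool} {r : ℚ} {x : X} (hx : x ≠ 1) (hx' : pw c r * x ≠ 1) :
    ty (pw c r * x) = ty x := by
  obtain ⟨e, y, rfl, h1, h2⟩ := ty_decomp c x
  rw [pw_mul_pw] at hx' ⊢
  by_cases hy : y = 1
  · have he : e ≠ 0 := by
      rintro rfl
      apply hx
      rw [hy, pw_zero, one_mul]
    have he' : r + e ≠ 0 := by
      intro h
      apply hx'
      rw [hy, h, pw_zero, one_mul]
    rw [h1 hy _ he, h1 hy _ he']
  · rw [h2 hy, h2 hy]

theorem ty_pw {c : Bool} {r : ℚ} (hr : r ≠ 0) : ty (pw c r) = some c := by
  obtain ⟨e, y, h, h1, h2⟩ := ty_decomp c 1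
  by_cases hy : y = 1
  · have := h1 hy r hr
    rwa [hy, mul_one] at this
  · have := h2 hy e
    rw [← h] at this
    exact absurd (ty_eq_none.1 (this.symm.trans (ty_eq_none.2 rfl))) hy

/-- Right multiplication by `c ^ r` when the last colour is not `c`. -/
theorem ty_mul_pw {c : Bool} {r : ℚ} (hr : r ≠ 0) :
    ∀ y : X, ty y ≠ some c → ty (y * pw c r) = some c := by
  refine pw_induction ?_ ?_
  · intro _
    rw [one_mul]
    exact ty_pw hr
  · intro d s x ih h
    by_cases hx : x = 1
    · subst hx
      rw [mul_one] at h ⊢
      by_cases hs : s = 0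
      · rw [hs, pw_zero, one_mul]; exact ty_pw hr
      · rw [ty_mul]
        · exact ty_pw hr
        · rw [Ne, pw_eq_one]; exact hr
        · intro h2
          apply h
          have : pw d s = pw c (-r) := by rw [pw_neg]; exact eq_inv_of_mul_eq_one_left h2
          rw [this]
          exact ty_pw (neg_ne_zero.2 hr)
    · by_cases hx' : pw d s * x = 1
      · rw [hx', one_mul]; exact ty_pw hr
      · rw [ty_mul hx hx'] at h
        have h1 := ih h
        rw [mul_assoc, ty_mul, h1]
        · intro h2
          rw [ty_eq_none.2 h2] at h1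
          exact absurd h1 (by simp)
        · intro h2
          rw [← mul_assoc] at h2
          have h3 : pw d s * x = pw c (-r) := by rw [pw_neg]; exact eq_inv_of_mul_eq_one_left h2
          apply h
          rw [← ty_mul hx hx', h3]
          exact ty_pw (neg_ne_zero.2 hr)

/-- Elements of `V` preserve the type. -/
theorem ty_V {g : Equiv.Perm X} (hg : g ∈ V) : ∀ x, ty (g x) = ty x := by
  refine pw_induction ?_ ?_
  · rw [hg.2]
  · intro c r x ih
    have key : ∀ s : ℚ, (s = r ∨ s = -r) → g (pw c r * x) = pw c s * g x →
        ty (g (pw c r * x)) = ty (pw c r * x) := by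
      intro s hs h
      by_cases hx : x = 1
      · subst hx
        rw [h, hg.2, mul_one, mul_one]
        by_cases hr : r = 0
        · have : s = r := by rcases hs with h | h <;> simp [h, hr]
          rw [this]
        · have : s ≠ 0 := by rcases hs with h | h <;> simp [h, hr]
          rw [ty_pw this, ty_pw hr]
      · by_cases hx' : pw c r * x = 1
        · rw [hx', hg.2]
        · have h1 : g x ≠ 1 := by
            intro h1
            apply hx
            exact g.injective (h1.trans hg.2.symm)
          have h2 : pw c s * g x ≠ 1 := by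
            rw [← h]
            intro h1
            exact hx' (g.injective (h1.trans hg.2.symm))
          rw [h, ty_mul h1 h2, ih, ty_mul hx hx']
    rcases hg.1 x c with h | h
    · exact key r (Or.inl rfl) (h r)
    · exact key (-r) (Or.inr rfl) (h r)

end Pool.Agent.Work.MP31f339
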